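import Pool.Agent.R187.WC.Fin
import Pool.Agent.R187.WC.Twr
import Pool.Agent.TH214.RM.Exq

/-!
MP_602153_ag: regular models, projective and flat over the integers, of coverings of projective
spaces, in every dimension.

Let `K` be a number field and let `P(x_0, ..., x_n, w)` be weighted homogeneous of weight `m e`,
where the `x_i` have weight one and `w` has weight `e`, with nonzero coefficient of `w ^ m`. The
weighted hypersurface `P = 0` is a covering of degree `m` of the projective space of dimension `n`,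
embedded in the total space of the line bundle `O(e)`. It is `Proj` of the Veronese ring
`⨁ (K[x, w] / (P))_(d e)`. We assume that it is smooth.

1. If for every prime `𝔭` of the number field the covering has, after a change of coordinates
   `x = T x'`, `w = a w' + B(x')` over `K`, an integral equation whose scheme is regular over `𝔭`,
   then it has a regular projective flat model over the integers.
2. Cyclic coverings `w ^ m + F(x) = 0`, `F` a form of degree `m e`: it suffices that at every prime
   `𝔭` the branch divisor `F = 0` has, after a linear change of coordinates over `K` and the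
   multiplication with an `m`-th power, an integral equation whose scheme is regular over `𝔭` and
   which satisfies a condition modulo `𝔭 ^ 2` if `𝔭` contains a prime divisor of `m`.
3. Double coverings `w ^ 2 + A(x) w + B(x) = 0` with integral coefficients: it suffices that the
   branch divisor `A ^ 2 - 4 B = 0` is regular over the primes not dividing two and the covering
   itself is regular over the primes dividing two.
4. Cyclic coverings branched along the towers
   `x_0 ^ (d-1) x_1 + x_1 ^ (d-1) x_2 + ... + x_k ^ (d-1) y_0 + F(y_0, ..., y_r)`, `d = m e`, if the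
   first form of the tower is regular and satisfies the condition at the primes dividing `m`.
5. The explicit cyclic coverings
   `w ^ m + x_0 ^ (d-1) x_1 + x_1 ^ (d-1) x_2 + ... + x_k ^ (d-1) y + b y ^ d = 0` with `d = m e`,
   where `b` is not in `𝔭 ^ 2` for all primes `𝔭`, and `b + c ^ p` is not in `𝔭 ^ 2` for all `c` if
   the prime number `p` divides `m (d - 1)` and is in `𝔭`.
6. Over the rational numbers all squarefree positive integers `b` divisible by the prime divisors
   of `m (d - 1)` are possible. For `m = 2` this gives in every dimension and for every even degree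
   `d = 2 e ≥ 4` of the branch divisor infinitely many double coverings of the projective space.
-/

set_option autoImplicit false

open AlgebraicGeometry CategoryTheory CategoryTheory.Limits MvPolynomial

open scoped NumberField

namespace Pool.Agent.Results.MP_602153_ag.CyclicCovers

/-- The polynomial in the variables `X j`, `j ≠ s`, obtained from `H` by setting `X s = 1`: the
equation of the hypersurface `H = 0` in the chart `X s ≠ 0` of the projective space over `R`. -/
noncomputable def dehom {R : Type} [CommRing R] {m : ℕ} (s : Fin m) (H : MvPolynomial (Fin m) R) :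
    MvPolynomial {j : Fin m // j ≠ s} R :=
  aeval (fun j => if h : j = s then 1 else X ⟨j, h⟩) H

/-- The weights: the variable `w = X none` has weight `e`, the variables `x_i = X (some i)` have
weight one. -/
def weight {n : ℕ} (e : ℕ) : Option (Fin n) → ℕ := fun o => o.elim e (fun _ => 1)

/-- The value of the variables in the chart `x_s ≠ 0`: `x_s = 1`. -/
noncomputable def chartValue {R : Type} [CommRing R] {n : ℕ} (s : Fin n) :
    Option (Fin n) → MvPolynomial (Option {j : Fin n // j ≠ s}) R
  | none => X none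
  | some j => if h : j = s then 1 else X (some ⟨j, h⟩)

/-- The polynomial in `w` and the variables `x_j`, `j ≠ s`, obtained from `P` by setting `x_s = 1`:
the equation of the weighted hypersurface `P = 0` in the chart `x_s ≠ 0`. -/
noncomputable def chartEquation {R : Type} [CommRing R] {n : ℕ} (s : Fin n)
    (P : MvPolynomial (Option (Fin n)) R) : MvPolynomial (Option {j : Fin n // j ≠ s}) R :=
  aeval (chartValue s) P

/-- The ideal `Q` of the polynomial ring over `R` lies over `𝔭`. -/
def LiesAbove {R σ : Type} [CommRing R] (𝔭 : Ideal R) (Q : Ideal (MvPolynomial σ R)) : Prop :=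
  ∀ r : R, C r ∈ Q ↔ r ∈ 𝔭

/-- For a prime `Q` of `A`, the element `f` is not in the square of the maximal ideal of the
localization of `A` at `Q`. -/
def NotInSquare {A : Type} [CommRing A] (Q : Ideal A) (f : A) : Prop :=
  ∀ h, h ∉ Q → h * f ∉ Q ^ 2

/-- The scheme `H = 0` in the projective space over `R` is regular at its points over `𝔭`: for every
chart `s` and every prime `Q` of the polynomial ring of the chart lying over `𝔭` and containing the
equation, the equation is not in the square of the maximal ideal of the localization at `Q`. -/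
def IsRegularAt {R : Type} [CommRing R] (𝔭 : Ideal R) {m : ℕ} (H : MvPolynomial (Fin m) R) :
    Prop :=
  ∀ (s : Fin m) (Q : Ideal (MvPolynomial {j : Fin m // j ≠ s} R)), Q.IsPrime →
    LiesAbove 𝔭 Q → dehom s H ∈ Q → NotInSquare Q (dehom s H)

/-- The weighted hypersurface `P(x, w) = 0` over `R` is regular at its points over `𝔭` in the charts
`x_s ≠ 0` (which cover it when the coefficient of the power of `w` in `P` is not in `𝔭`). -/
def IsRegularCoverAt {R : Type} [CommRing R] (𝔭 : Ideal R) {n : ℕ}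
    (P : MvPolynomial (Option (Fin n)) R) : Prop :=
  ∀ (s : Fin n) (Q : Ideal (MvPolynomial (Option {j : Fin n // j ≠ s}) R)), Q.IsPrime →
    LiesAbove 𝔭 Q → chartEquation s P ∈ Q → NotInSquare Q (chartEquation s P)

/-- The partial derivatives of `G` have no common zero (over an algebraic closure) but the origin:
every variable has a power in the ideal they generate. -/
def IsSmooth {K σ : Type} [Field K] (G : MvPolynomial σ K) : Prop :=
  ∀ i, X i ∈ (Ideal.span (Set.range fun j => pderiv j G)).radical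

/-- The weighted homogeneous polynomial of weight `m e` defines a covering of degree `m`: its
coefficient of `w ^ m` is not zero, so that it is a polynomial of degree `m` in `w`, and its partial
derivatives have no common zero but the origin. -/
def IsSmoothCoverEquation {K : Type} [Field K] {n : ℕ} (e m : ℕ)
    (P : MvPolynomial (Option (Fin n)) K) : Prop :=
  P.IsWeightedHomogeneous (weight e) (m * e) ∧ coeff (Finsupp.single none m) P ≠ 0 ∧ IsSmooth P

/-- The change of coordinates `x_i = ∑ T_ij x_j`, `w = a w + B(x)`. -/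
noncomputable def substitution {K : Type} [Field K] {n : ℕ} (T : Matrix (Fin n) (Fin n) K)
    (a : K) (B : MvPolynomial (Fin n) K) : Option (Fin n) → MvPolynomial (Option (Fin n)) K
  | none => C a * X none + rename some B
  | some i => ∑ j, C (T i j) * X (some j)

/-- For every prime `𝔭` a change of coordinates over the number field (an invertible linear one of
the `x_i`, and `w = a w + B(x)` with `a ≠ 0` and `B` a form of degree `e`) and a scalar turn `P`
into a weighted homogeneous polynomial with integral coefficients whose coefficient of `w ^ m` is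
not in `𝔭` and whose weighted hypersurface is regular at its points over `𝔭`. -/
def HasRegularEquations {K : Type} [Field K] {n : ℕ} (e m : ℕ)
    (P : MvPolynomial (Option (Fin n)) K) : Prop :=
  ∀ 𝔭 : Ideal (𝓞 K), 𝔭.IsPrime → 𝔭 ≠ ⊥ →
    ∃ (H : MvPolynomial (Option (Fin n)) (𝓞 K)) (l a : K) (T T' : Matrix (Fin n) (Fin n) K)
      (B : MvPolynomial (Fin n) K),
      a ≠ 0 ∧ T * T' = 1 ∧ B.IsHomogeneous e ∧
      map (algebraMap (𝓞 K) K) H = C l * aeval (substitution T a B) P ∧
      H.IsWeightedHomogeneous (weight e) (m * e) ∧ coeff (Finsupp.single none m) H ∉ 𝔭 ∧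
      IsRegularCoverAt 𝔭 H

/-- The equation `w ^ m + F(x) = 0` of the cyclic covering of degree `m` branched along `F = 0`. -/
noncomputable def cyclicCover {R : Type} [CommRing R] {n : ℕ} (m : ℕ)
    (F : MvPolynomial (Fin n) R) : MvPolynomial (Option (Fin n)) R :=
  X none ^ m + rename some F

/-- The equation `w ^ 2 + A(x) w + B(x) = 0`. -/
noncomputable def doubleCover {R : Type} [CommRing R] {n : ℕ}
    (A B : MvPolynomial (Fin n) R) : MvPolynomial (Option (Fin n)) R :=
  X none ^ 2 + rename some A * X none + rename some B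

/-- The ideal `q` contains the partial derivatives of `f`. -/
def IsCritical {R σ : Type} [CommRing R] (q : Ideal (MvPolynomial σ R)) (f : MvPolynomial σ R) :
    Prop :=
  ∀ j, pderiv j f ∈ q

/-- The residue ring is finite and `f + g ^ p` is not in `q ^ 2` for any `g`. -/
def IsWildlyRegular {A : Type} [CommRing A] (p : ℕ) (q : Ideal A) (f : A) : Prop :=
  Finite (A ⧸ q) ∧ ∀ g, f + g ^ p ∉ q ^ 2

/-- The condition at a prime `𝔭` containing a prime number `p` dividing `m`, in all charts: every
prime `q` of the polynomial ring of the chart which lies over `𝔭` and contains the partial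
derivatives of the equation `f` has finite residue ring, and `f + g ^ p` is not in `q ^ 2` for any
`g`. -/
def CyclicWildCondition {R : Type} [CommRing R] (𝔭 : Ideal R) (m : ℕ) {n : ℕ}
    (F : MvPolynomial (Fin n) R) : Prop :=
  ∀ p : ℕ, p.Prime → p ∣ m → (p : R) ∈ 𝔭 →
    ∀ (s : Fin n) (q : Ideal (MvPolynomial {j : Fin n // j ≠ s} R)), q.IsPrime →
      LiesAbove 𝔭 q → IsCritical q (dehom s F) → IsWildlyRegular p q (dehom s F)

/-- For every prime `𝔭` an invertible linear change of coordinates over the number field and the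
`m`-th power of a scalar turn `F` into a form with integral coefficients whose hypersurface is
regular at its points over `𝔭`, and which satisfies the condition at the primes dividing `m`. -/
def HasRegularBranchEquations {K : Type} [Field K] {n : ℕ} (m : ℕ)
    (F : MvPolynomial (Fin n) K) : Prop :=
  ∀ 𝔭 : Ideal (𝓞 K), 𝔭.IsPrime → 𝔭 ≠ ⊥ →
    ∃ (H : MvPolynomial (Fin n) (𝓞 K)) (a : K) (T T' : Matrix (Fin n) (Fin n) K),
      a ≠ 0 ∧ T * T' = 1 ∧
      map (algebraMap (𝓞 K) K) H = C (a ^ m) * aeval (fun i => ∑ j, C (T i j) * X j) F ∧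
      IsRegularAt 𝔭 H ∧ CyclicWildCondition 𝔭 m H

/-- The variable `X i`, for a natural number `i`. -/
noncomputable def var (R : Type) [CommRing R] (m i : ℕ) : MvPolynomial (Fin (m + 1)) R :=
  X (Fin.ofNat (m + 1) i)

/-- The form `x_0 ^ (d-1) x_1 + x_1 ^ (d-1) x_2 + ... + x_k ^ (d-1) x_(k+1) +
F(x_(k+1), ..., x_(k+1+r))`. -/
noncomputable def tower {R : Type} [CommRing R] (d : ℕ) {r : ℕ} (k : ℕ)
    (F : MvPolynomial (Fin (r + 1)) R) : MvPolynomial (Fin (r + k + 2)) R :=
  (∑ i ∈ Finset.range (k + 1), var R (r + k + 1) i ^ (d - 1) * var R (r + k + 1) (i + 1)) +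
  rename (fun j : Fin (r + 1) => Fin.ofNat (r + k + 2) (k + 1 + j)) F

/-- The polynomial over `K` given by a polynomial with integral coefficients. -/
noncomputable def overK {K σ : Type} [Field K] (F : MvPolynomial σ (𝓞 K)) :
    MvPolynomial σ K :=
  map (algebraMap (𝓞 K) K) F

/-- The form `b y ^ d` in one variable. -/
noncomputable def monomialForm {K : Type} [Field K] (d : ℕ) (b : 𝓞 K) :
    MvPolynomial (Fin (0 + 1)) (𝓞 K) :=
  C b * X 0 ^ d

/-- The conditions on the coefficient `b`. -/
def IsAdmissibleCoefficient {K : Type} [Field K] (m d : ℕ) (b : 𝓞 K) : Prop :=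
  b ≠ 0 ∧ ∀ 𝔭 : Ideal (𝓞 K), 𝔭.IsPrime → 𝔭 ≠ ⊥ → b ∉ 𝔭 ^ 2 ∧
    ∀ p : ℕ, p.Prime → p ∣ m * (d - 1) → (p : 𝓞 K) ∈ 𝔭 → ∀ c : 𝓞 K, b + c ^ p ∉ 𝔭 ^ 2

/-- The dimensions of the local rings of `A` equal the dimensions of their cotangent spaces. -/
def HasRegularLocalRings (A : Type) [CommRing A] : Prop :=
  ∀ p : PrimeSpectrum A, ringKrullDim (Localization.AtPrime p.asIdeal) =
    (((Module.finrank (IsLocalRing.ResidueField (Localization.AtPrime p.asIdeal))
      (IsLocalRing.CotangentSpace (Localization.AtPrime p.asIdeal)) : ℕ) : ℕ∞) : WithBot ℕ∞)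

/-- The local rings of the locally Noetherian scheme `Y` are regular. -/
def IsRegularScheme (Y : Scheme.{0}) : Prop :=
  IsLocallyNoetherian Y ∧
  ∀ U : Y.affineOpens, HasRegularLocalRings (Y.presheaf.obj (Opposite.op U.1))

/-- `Y` is projective over the integers. -/
def IsProjectiveOverInt (Y : Scheme.{0}) : Prop :=
  ∃ (A : Type) (_ : CommRing A) (𝒜 : ℕ → Submodule ℤ A) (_ : GradedAlgebra 𝒜),
    (∀ a ∈ 𝒜 0, ∃ n : ℤ, (n : A) = a) ∧
    (∃ s : Finset A, (∀ a ∈ s, a ∈ 𝒜 1) ∧ Algebra.adjoin ℤ (s : Set A) = ⊤) ∧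
    Nonempty (Y ≅ Proj 𝒜)

/-- The generic fibre of `Y` is isomorphic to `V`. -/
def HasGenericFibre (Y V : Scheme.{0}) : Prop :=
  Nonempty (pullback (specZIsTerminal.from Y)
      (specZIsTerminal.from (Spec (CommRingCat.of ℚ))) ≅ V)

/-- `Y` is an integral regular locally Noetherian scheme, projective and flat over the integers,
with generic fibre `V`. -/
def IsRegularProjectiveFlatModel (V Y : Scheme.{0}) : Prop :=
  IsIntegral Y ∧ IsRegularScheme Y ∧ IsProjectiveOverInt Y ∧ Flat (specZIsTerminal.from Y) ∧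
    HasGenericFibre Y V

/-- Every scheme `V` isomorphic to the weighted hypersurface `P = 0`, viewed over the rational
numbers, has a regular projective flat model over the integers. Here the weighted hypersurface is
`Proj` of the graded ring `ℬ` whose part of degree `d` is the part of weight `d e` of
`K[x, w] / (P)` (by `j`, which identifies the ring with a subring of `K[x, w] / (P)`). -/
def CoverHasModel {K : Type} [Field K] {n : ℕ} (e : ℕ) (P : MvPolynomial (Option (Fin n)) K) :
    Prop :=
  ∀ (B : Type) [CommRing B] [Algebra K B]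
    (j : B →ₐ[K] (MvPolynomial (Option (Fin n)) K ⧸ Ideal.span {P})), Function.Injective j →
  ∀ (ℬ : ℕ → Submodule K B) [GradedAlgebra ℬ],
    (∀ d, (ℬ d).map j.toLinearMap = (weightedHomogeneousSubmodule K (weight e) (d * e)).map
      (Ideal.Quotient.mkₐ K (Ideal.span {P})).toLinearMap) →
  ∀ (V : Scheme.{0}), Nonempty (V ≅ Proj ℬ) → ∃ Y, IsRegularProjectiveFlatModel V Y

theorem chartValue_eq {R : Type} [CommRing R] {n : ℕ} (s : Fin n) :
    (chartValue s : Option (Fin n) → MvPolynomial (Option {j : Fin n // j ≠ s}) R) =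
      Pool.Agent.R187.WC.tauW s := by
  funext o
  cases o <;> rfl

theorem chartEquation_eq {R : Type} [CommRing R] {n : ℕ} (s : Fin n)
    (P : MvPolynomial (Option (Fin n)) R) :
    chartEquation s P = Pool.Agent.R187.WC.dehW s P := by
  unfold chartEquation Pool.Agent.R187.WC.dehW
  rw [chartValue_eq]

theorem critW_of {R : Type} [CommRing R] {𝔭 : Ideal R} {n : ℕ}
    {P : MvPolynomial (Option (Fin n)) R} (h : IsRegularCoverAt 𝔭 P) :
    Pool.Agent.R187.WC.CritW 𝔭 P := by
  intro s Q hQ hC hP
  rw [← chartEquation_eq] at hP ⊢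
  exact Or.inr (h s Q hQ hC hP)

theorem substitution_eq {K : Type} [Field K] {n : ℕ} (T : Matrix (Fin n) (Fin n) K)
    (a : K) (B : MvPolynomial (Fin n) K) :
    substitution T a B = Pool.Agent.R187.WC.subW T a B := by
  funext o
  cases o <;> rfl

theorem locRegW_of {K : Type} [Field K] {n : ℕ} {e m : ℕ}
    {P : MvPolynomial (Option (Fin (n + 1))) K} (h : HasRegularEquations e m P) :
    Pool.Agent.R187.WC.LocRegW (𝓞 K) e m P := by
  intro 𝔭 hp h0
  obtain ⟨H, l, a, T, T', B, ha, hT, hB, hH, hHd, hc, hreg⟩ := h 𝔭 hp h0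
  rw [substitution_eq] at hH
  exact ⟨H, l, a, T, T', B, ha, hT, hB, hH, hHd, hc, critW_of hreg⟩

theorem result :
    (∀ (K : Type) [Field K] [NumberField K] (n e m : ℕ), 1 ≤ n → 1 ≤ e → 1 ≤ m →
      ∀ P : MvPolynomial (Option (Fin (n + 1))) K, IsSmoothCoverEquation e m P →
      HasRegularEquations e m P → CoverHasModel e P) ∧
    (∀ (K : Type) [Field K] [NumberField K] (n e m : ℕ), 1 ≤ n → 1 ≤ e → 2 ≤ m →
      ∀ F : MvPolynomial (Fin (n + 1)) K, F.IsHomogeneous (m * e) → IsSmooth F →
      HasRegularBranchEquations m F → CoverHasModel e (cyclicCover m F)) ∧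
    (∀ (K : Type) [Field K] [NumberField K] (n e : ℕ), 1 ≤ n → 1 ≤ e →
      ∀ A B : MvPolynomial (Fin (n + 1)) (𝓞 K), A.IsHomogeneous e → B.IsHomogeneous (2 * e) →
      IsSmooth (overK (A ^ 2 - 4 * B)) →
      (∀ 𝔭 : Ideal (𝓞 K), 𝔭.IsPrime → 𝔭 ≠ ⊥ → 2 ∉ 𝔭 → IsRegularAt 𝔭 (A ^ 2 - 4 * B)) →
      (∀ 𝔭 : Ideal (𝓞 K), 𝔭.IsPrime → 𝔭 ≠ ⊥ → 2 ∈ 𝔭 → IsRegularCoverAt 𝔭 (doubleCover A B)) →
      CoverHasModel e (overK (doubleCover A B))) ∧
    (∀ (K : Type) [Field K] [NumberField K] (e m r k : ℕ), 1 ≤ e → 2 ≤ m → 3 ≤ m * e →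
      ∀ F : MvPolynomial (Fin (r + 1)) (𝓞 K), F.IsHomogeneous (m * e) →
      IsSmooth (tower (m * e) 0 (overK F)) →
      (∀ 𝔭 : Ideal (𝓞 K), 𝔭.IsPrime → 𝔭 ≠ ⊥ → IsRegularAt 𝔭 (tower (m * e) 0 F) ∧
        CyclicWildCondition 𝔭 m (tower (m * e) 0 F)) →
      CoverHasModel e (cyclicCover m (tower (m * e) k (overK F)))) ∧
    (∀ (K : Type) [Field K] [NumberField K] (e m k : ℕ), 1 ≤ e → 2 ≤ m → 3 ≤ m * e →
      ∀ b : 𝓞 K, IsAdmissibleCoefficient m (m * e) b →
      CoverHasModel e (cyclicCover m (tower (m * e) k (overK (monomialForm (m * e) b))))) ∧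
    (∀ (e m k N : ℕ), 1 ≤ e → 2 ≤ m → 3 ≤ m * e → Squarefree N →
      (∀ p : ℕ, p.Prime → p ∣ m * (m * e - 1) → p ∣ N) →
      CoverHasModel (K := ℚ) e (cyclicCover m (tower (m * e) k
        (C (N : ℚ) * X 0 ^ (m * e) : MvPolynomial (Fin (0 + 1)) ℚ)))) := by
  have main : ∀ (K : Type) [Field K] [NumberField K] (n e m : ℕ), 1 ≤ n → 1 ≤ e → 1 ≤ m →
      ∀ P : MvPolynomial (Option (Fin (n + 1))) K, P.IsWeightedHomogeneous (weight e) (m * e) →
      coeff (Finsupp.single none m) P ≠ 0 → Pool.Agent.R187.WC.SmoothW P →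
      Pool.Agent.R187.WC.LocRegW (𝓞 K) e m P → CoverHasModel e P := by
    intro K _ _ n e m hn he hm P hPd hc hsm hloc B _ _ j hj ℬ _ hℬ V hV
    obtain ⟨Y, hi, hn', hr, hp, hf, hg⟩ :=
      Pool.Agent.R187.WC.model_ZW hn e m he hm P hPd hc hsm hloc j hj ℬ hℬ V hV
    exact ⟨Y, hi, ⟨hn', hr⟩, hp, hf, hg⟩
  have cyc : ∀ (K : Type) [Field K] [NumberField K] (n e m : ℕ), 1 ≤ n → 1 ≤ e → 2 ≤ m →
      ∀ F : MvPolynomial (Fin (n + 1)) K, F.IsHomogeneous (m * e) → IsSmooth F →
      Pool.Agent.R187.WC.LocCyc (𝓞 K) m F → CoverHasModel e (cyclicCover m F) := by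
    intro K _ _ n e m hn he hm F hF hsm hloc
    exact main K n e m hn he (by omega) _ (Pool.Agent.R187.WC.whom_cycW m e F hF)
      (by
        have h1 := Pool.Agent.R187.WC.coeff_cycW m (by omega) F
        have h2 : coeff (Finsupp.single none m) (cyclicCover m F) = 1 := h1
        rw [h2]
        exact one_ne_zero)
      (Pool.Agent.R187.WC.smooth_cycW m F hsm)
      (Pool.Agent.R187.WC.locRegW_cyc e m hm F hF hloc)
  have tow : ∀ (K : Type) [Field K] [NumberField K] (e m r k : ℕ), 1 ≤ e → 2 ≤ m → 3 ≤ m * e →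
      ∀ F : MvPolynomial (Fin (r + 1)) (𝓞 K), F.IsHomogeneous (m * e) →
      IsSmooth (tower (m * e) 0 (overK F)) →
      (∀ 𝔭 : Ideal (𝓞 K), 𝔭.IsPrime → 𝔭 ≠ ⊥ → IsRegularAt 𝔭 (tower (m * e) 0 F) ∧
        CyclicWildCondition 𝔭 m (tower (m * e) 0 F)) →
      CoverHasModel e (cyclicCover m (tower (m * e) k (overK F))) := by
    intro K _ _ e m r k he hm hd F hF hsm hreg
    obtain ⟨h1, h2, h3⟩ := Pool.Agent.R187.WC.data_cycW_chain m (m * e) (dvd_mul_right m e) hd k F
      hF hsm hreg
    exact cyc K (r + k + 1) e m (by omega) he hm _ h1 h2 h3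
  have mono : ∀ (K : Type) [Field K] [NumberField K] (e m k : ℕ), 1 ≤ e → 2 ≤ m → 3 ≤ m * e →
      ∀ b : 𝓞 K, IsAdmissibleCoefficient m (m * e) b →
      CoverHasModel e (cyclicCover m (tower (m * e) k (overK (monomialForm (m * e) b)))) := by
    rintro K _ _ e m k he hm hd b ⟨hb, hb2⟩
    obtain ⟨h1, h2⟩ := Pool.Agent.R187.WC.data_cycW_zero m (m * e) (dvd_mul_right m e) hd b hb hb2
    exact tow K e m 0 k he hm hd (monomialForm (m * e) b)
      (Pool.Agent.TH214.RM.isHomogeneous_zero (m * e) b) h1 h2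
  refine ⟨?_, ?_, ?_, tow, mono, ?_⟩
  · rintro K _ _ n e m hn he hm P ⟨hPd, hc, hsm⟩ hloc
    exact main K n e m hn he hm P hPd hc (fun i => hsm (some i)) (locRegW_of hloc)
  · intro K _ _ n e m hn he hm F hF hsm hloc
    refine cyc K n e m hn he hm F hF hsm ?_
    intro 𝔭 hp h0
    obtain ⟨H, a, T, T', ha, hT, hH, hreg, hw⟩ := hloc 𝔭 hp h0
    exact ⟨H, a, T, T', ha, hT, hH, Pool.Agent.TH214.RM.Reg.crit hreg, hw⟩
  · intro K _ _ n e hn he A B hA hB hsm hodd htwo
    have hmap : overK (doubleCover A B) = Pool.Agent.R187.WC.dblW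
        (map (algebraMap (𝓞 K) K) A) (map (algebraMap (𝓞 K) K) B) :=
      Pool.Agent.R187.WC.map_dblW _ A B
    have hsm' : Pool.Agent.TH214.RM.Smooth ((map (algebraMap (𝓞 K) K) A) ^ 2 -
        4 * map (algebraMap (𝓞 K) K) B) := by
      have h1 : overK (A ^ 2 - 4 * B) = (map (algebraMap (𝓞 K) K) A) ^ 2 -
          4 * map (algebraMap (𝓞 K) K) B := by
        unfold overK
        rw [map_sub, map_pow, map_mul, map_ofNat]
      rw [← h1]
      exact hsm
    refine main K n e 2 hn he (by norm_num) _ ?_ ?_ ?_ ?_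
    · rw [hmap]
      exact Pool.Agent.R187.WC.whom_dblW e _ _ (hA.map _) (hB.map _)
    · rw [hmap, Pool.Agent.R187.WC.coeff_dblW]
      exact one_ne_zero
    · rw [hmap]
      exact Pool.Agent.R187.WC.smooth_dblW _ _ hsm'
    · exact Pool.Agent.R187.WC.locRegW_dbl e A B hA hB
        (fun 𝔭 hp h0 h2 => Pool.Agent.TH214.RM.Reg.crit (hodd 𝔭 hp h0 h2))
        (fun 𝔭 hp h0 h2 => critW_of (htwo 𝔭 hp h0 h2))
  · intro e m k N he hm hd hN hdN
    have h1 : (C (N : ℚ) * X 0 ^ (m * e) : MvPolynomial (Fin (0 + 1)) ℚ) =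
        overK (monomialForm (m * e) (N : 𝓞 ℚ)) := by
      unfold overK monomialForm
      rw [map_mul, map_C, map_pow, map_X,
        show algebraMap (𝓞 ℚ) ℚ (N : 𝓞 ℚ) = (N : ℚ) from map_natCast _ N]
    rw [h1]
    refine mono ℚ e m k he hm hd (N : 𝓞 ℚ) ⟨fun h => hN.ne_zero (Nat.cast_eq_zero.1 h),
      fun 𝔭 hp h0 => ⟨Pool.Agent.TH214.RM.rat_notMem_sq N hN 𝔭 hp, fun p hp' hpd hp𝔭 =>
        Pool.Agent.TH214.RM.rat_add_pow_notMem N hN 𝔭 hp p hp' (hdN p hp' hpd) hp𝔭⟩⟩

end Pool.Agent.Results.MP_602153_ag.CyclicCovers
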