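import Pool.Agent.R187.CT.Mul

/-!
MP_602153_ag: projective flat models over the integers which are regular at the centres of
valuations, in all dimensions.

Let `K` be a number field with the ring of integers `O`, and let `X` be an integral projective
variety over `K` of any dimension (for example, a smooth one) with the function field `F`. A
projective flat model `𝒳` of `X` over `O` is given by a finite set `W ⊆ F` of homogeneous
coordinates: `𝒳 = Proj O[W]`, with the charts `Spec O[v / w : v ∈ W]`, and `X = Proj K[W]`. Let `S` be
a finite set of prime numbers, and for all `p ∈ S` let `V_p` be a valuation ring of `F` (of any rank)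
in which `p` is topologically nilpotent: `F = V_p[1/p]`. So `V_p` is a point of the adic space of `X`
over a `p`-adic place of `K`, which lies over the generic point of `X`. Suppose that all `V_p` are in
the smallest class of valuations of finitely generated fields over `O`, and of residue fields, which
contains

1. the trivial and the discrete valuations (with arbitrary residue fields and defect) and the
   valuations with divergent sequences of quadratic transforms,
2. the valuations which are log uniformizable on all affine models (for example, if the dimension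
   of the models is at most `3`, by Cossart and Piltant),
3. the composites of two valuations in the class, and
4. the valuations `V` of a field which is reached by a tower without defect (wild ramification and
   inseparable residue extensions are allowed) from a finitely generated subfield on which `V` is in
   the class.

Then every projective flat model `𝒳` of `X` is dominated by a projective flat model `𝒳'` of `X`,
a blowing-up of `𝒳` in a closed subscheme of the union of the fibres over the primes `p ∈ S`, which is
regular at the centres of all `V_p`; moreover, at the centre of `V_p`, the fibre of `𝒳'` over `p` is a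
divisor with normal crossings. (The ring `O` is finite over `ℤ`, so
`𝒳` and `𝒳'` are projective and flat over the integers.)
-/

set_option autoImplicit false

universe u

namespace Pool.Agent.Results.MP_602153_ag.ModelsAtValuations

open IsLocalRing Pool.Agent.W418.LU2 Pool.Agent.TH188.QS NumberField

/-- The local ring of `Spec B` at the centre of the valuation ring `V`: the fractions of elements
of `B` whose denominators are units of `V`. -/
def centreRing {F : Type u} [Field F] (V : ValuationSubring F) (B : Subring F) : Subring F where
  carrier := {x | ∃ a ∈ B, ∃ b ∈ B, b ≠ 0 ∧ b⁻¹ ∈ V ∧ x = a * b⁻¹}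
  mul_mem' := (lo V.toSubring B).mul_mem'
  one_mem' := (lo V.toSubring B).one_mem'
  add_mem' := (lo V.toSubring B).add_mem'
  zero_mem' := (lo V.toSubring B).zero_mem'
  neg_mem' := (lo V.toSubring B).neg_mem'

/-- The chart `A[I / f]` of the blowing-up of `Spec A` in the ideal `I`. -/
def blowUpChart {F : Type u} [Field F] (A : Subring F) (I : Ideal A) (f : A) : Subring F :=
  Subring.closure ((A : Set F) ∪ {z | ∃ a ∈ I, z = (a : F) / (f : F)})

/-- `P` is a regular local ring and the zero set of `J` is a divisor with strict normal
crossings: the radical of `J` is generated by the product of some of the elements of a regular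
system of parameters. -/
def RegularPair (P : Type u) [CommRing P] (J : Ideal P) : Prop :=
  ∃ (_ : IsRegularLocalRing P) (n : ℕ) (x : Fin n → P) (s : Finset (Fin n)),
    Ideal.span (Set.range x) = IsLocalRing.maximalIdeal P ∧ ringKrullDim P = n ∧
      J.radical = Ideal.span {∏ i ∈ s, x i}

/-- The blowing-up of `X = Spec A` in `V(I)` is a log desingularization of `(X, V(D))` along the
valuation ring `V`. Here `f ∈ I` generates `I V`, the centre of the lift of the valuation lies in
the chart `Spec A[I / f]`, and the ideal `D I` defines the preimage of `V(D) ∪ V(I)`. -/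
def IsLogDesingularization {F : Type u} [Field F] (V : ValuationSubring F) (A : Subring F)
    (D I : Ideal A) : Prop :=
  ∃ f ∈ I, f ≠ 0 ∧ (∀ a ∈ I, (a : F) / (f : F) ∈ V) ∧
    RegularPair (centreRing V (blowUpChart A I f))
      (Ideal.span {z | ∃ a ∈ D * I, (z : F) = (a : F)})

/-- The valuation ring `V` is log uniformizable on `Spec A`. (The blowings-up in the ideals
`I₀ * I₁` are cofinal: the blowing-up in `I₀ * I₁` factors through the blowing-up in `I₀`.) -/
def IsLogUniformizable {F : Type u} [Field F] (V : ValuationSubring F) (A : Subring F) : Prop :=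
  ∀ D I₀ : Ideal A, D ≠ ⊥ → I₀ ≠ ⊥ →
    ∃ I₁ : Ideal A, I₁ ≠ ⊥ ∧ IsLogDesingularization V A D (I₀ * I₁)

/-- The image of the `R`-algebra generated by `T`. -/
def adjoined {R K : Type u} [CommRing R] [Field K] (ρ : R →+* K) (T : Set K) : Subring K :=
  Subring.closure ((ρ.range : Set K) ∪ T)

/-- The quadratic transform of `Q` along `V`: the local ring, at the centre of `V`, of the
blowing-up of `Spec Q` in the centre of `V`. -/
def quadraticTransform {K : Type u} [Field K] (V : ValuationSubring K) (Q : Subring K) :
    Subring K :=
  centreRing V (Subring.closure ((Q : Set K) ∪ {t | ∃ y ∈ Q, ∃ z ∈ Q,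
    V.valuation y < 1 ∧ z ≠ 0 ∧ V.valuation z < 1 ∧
      (∀ w ∈ Q, V.valuation w < 1 → V.valuation w ≤ V.valuation z) ∧ t = y / z}))

/-- The sequence of quadratic transforms of the local ring of `Spec A` at the centre of `V`. -/
def quadraticSequence {K : Type u} [Field K] (V : ValuationSubring K) (A : Subring K) :
    ℕ → Subring K
  | 0 => centreRing V A
  | n + 1 => quadraticTransform V (quadraticSequence V A n)

/-- The values of the maximal ideals in the sequence of quadratic transforms have an infinite sum:
every value of `V` is exceeded by the value of all products `z 0 * ... * z (n - 1)` of elements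
`z i` of the maximal ideals of the rings of the sequence, for some `n`. -/
def IsDivergent {K : Type u} [Field K] (V : ValuationSubring K) (A : Subring K) : Prop :=
  ∀ x : K, x ≠ 0 → ∃ n : ℕ, ∀ z : ℕ → K,
    (∀ i < n, z i ∈ quadraticSequence V A i ∧ z i ≠ 0 ∧ V.valuation (z i) < 1) →
      V.valuation (∏ i ∈ Finset.range n, z i) < V.valuation x

/-- `V` is the composite of the valuation ring `V₁` and the valuation ring `W` of its residue
field. -/
def IsComposite {K : Type u} [Field K] (V V₁ : ValuationSubring K)
    (W : ValuationSubring (ResidueField V₁)) : Prop :=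
  ∀ z : K, z ∈ V ↔ ∃ hz : z ∈ V₁, residue V₁ ⟨z, hz⟩ ∈ W

section key

open Polynomial

variable {K : Type u} [Field K] (V : ValuationSubring K) {L : Subfield K} (θ : K)

/-- The monic polynomial `ϕ` over `L` of positive degree is a key polynomial for the valuation
`f ↦ |f(θ)|` of polynomials: if `f` and `g` are nonzero polynomials of smaller degree and
`f g = q ϕ + r` with `deg r < deg ϕ`, then `|q(θ) ϕ(θ)| < |f(θ) g(θ)|`. (So `|r(θ)| = |f(θ) g(θ)|`,
and the values of the polynomials of smaller degree define a valuation of `L[X] / (ϕ)`.) -/
def IsKey (ϕ : L[X]) : Prop :=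
  ϕ.Monic ∧ 0 < ϕ.natDegree ∧ ∀ f g : L[X], f.degree < ϕ.degree → g.degree < ϕ.degree →
    f ≠ 0 → g ≠ 0 → V.valuation (aeval θ (f * g /ₘ ϕ * ϕ)) < V.valuation (aeval θ (f * g))

/-- The polynomials of degree less than the degree of `ϕ` have an orthogonal basis over `L` with
respect to the valuation `f ↦ |f(θ)|`. (For a key polynomial `ϕ` this means that the valued field
`L[X] / (ϕ)` is an extension of `L` of degree `e f`. It holds if there are no limit key
polynomials of degree at most `deg ϕ`.) -/
def IsDefectless (ϕ : L[X]) : Prop :=
  ∃ (n : ℕ) (β : Fin n → L[X]), (∀ i, (β i).degree < ϕ.degree ∧ β i ≠ 0) ∧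
    (∀ f : L[X], f.degree < ϕ.degree → ∃ c : Fin n → L, f = ∑ i, C (c i) * β i) ∧
    ∀ (c : Fin n → L) (i : Fin n), V.valuation (aeval θ (C (c i) * β i)) ≤
      V.valuation (aeval θ (∑ j, C (c j) * β j))

/-- The value of `f(θ)` is determined by `ϕ`: in the `ϕ`-adic expansion `f = ∑ f_k ϕ ^ k` with
`deg f_k < deg ϕ` the value of no term at `θ` is greater than the value of `f(θ)`. -/
def IsDetermined (ϕ f : L[X]) : Prop :=
  ∃ (N : ℕ) (d : ℕ → L[X]), (∀ k, (d k).degree < ϕ.degree) ∧
    f = ∑ k ∈ Finset.range N, d k * ϕ ^ k ∧
    ∀ k < N, V.valuation (aeval θ (d k * ϕ ^ k)) ≤ V.valuation (aeval θ f)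

end key

open Polynomial in
/-- The extension `L ⊆ L'` of subfields of `K` is finite and has no defect with respect to the
valuation ring `V` of `K`. That is, for some valuation ring `W` over `V` of some extension field
`M` of `K`, some root `ζ ∈ M` of a monic polynomial `f` over `V ∩ L` with `|f'(ζ)| = 1`, and some
nonzero elements `β i` of `L'`, the field `L'(ζ)` is the sum of the lines `L(ζ) β i`, and the `β
i` are orthogonal over `L(ζ) = L[ζ]`. (The extension `L(ζ) / L` is unramified. If `L^h ⊆ L'^h ⊆
K^h` are the henselizations for `V` and `[L'^h : L^h] = e f`, then this holds with `M = K^h`,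
`L(ζ)` a large finite subextension of `L^h / L`, and with products of `e` elements of `L'` whose
values represent the cosets of the value group and `f` elements of `L'` whose residues form a
basis for the `β i`. For `M = K` and `L(ζ) = L` it is the condition `[L' : L] = e f`.) -/
def IsFiniteWithoutDefect {K : Type u} [Field K] (V : ValuationSubring K) (L L' : Subfield K) :
    Prop :=
  L ≤ L' ∧ ∃ (M : Type u) (_ : Field M) (_ : Algebra K M) (W : ValuationSubring M) (ζ : M)
    (f : L[X]) (n : ℕ) (β : Fin n → K), W.comap (algebraMap K M) = V ∧ f.Monic ∧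
    (∀ i, (f.coeff i : K) ∈ V) ∧ eval₂ ((algebraMap K M).comp L.subtype) ζ f = 0 ∧
    W.valuation (eval₂ ((algebraMap K M).comp L.subtype) ζ (derivative f)) = 1 ∧
    (∀ i, β i ∈ L' ∧ β i ≠ 0) ∧
    (∀ z ∈ L', ∃ c : Fin n → L[X], algebraMap K M z =
      ∑ i, eval₂ ((algebraMap K M).comp L.subtype) ζ (c i) * algebraMap K M (β i)) ∧
    ∀ (c : Fin n → L[X]) (i : Fin n),
      W.valuation (eval₂ ((algebraMap K M).comp L.subtype) ζ (c i) * algebraMap K M (β i)) ≤
        W.valuation (∑ j, eval₂ ((algebraMap K M).comp L.subtype) ζ (c j) * algebraMap K M (β j))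

open Polynomial in
/-- The subfields `L` of `K` which are reached from the field `E` by a tower of steps without
defect with respect to the valuation ring `V` of `K`. -/
inductive Tower (E : Type u) {K : Type u} [Field E] [Field K] [Algebra E K]
    (V : ValuationSubring K) : Subfield K → Prop
  /-- The tower starts with (the image of) `E`. -/
  | base : Tower E V (algebraMap E K).fieldRange
  /-- The step from `L` to `L(t)`, where `t` is transcendental and the value of every polynomial in
  `t` is determined by a defectless key polynomial. (This holds if the valuation of `L(t)` has no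
  limit key polynomials; for example, if `L` is algebraically closed, if `t` is a limit of a
  pseudo-convergent sequence of transcendental type, or if the value or the residue of a
  defectless key polynomial at `t` is transcendental over `L`.) -/
  | transcendental (L : Subfield K) (t : K) : Tower E V L → Transcendental L t →
    (∀ f : L[X], ∃ ϕ : L[X], IsKey V t ϕ ∧ IsDefectless V t ϕ ∧ IsDetermined V t ϕ f) →
    Tower E V (L ⊔ Subfield.closure {t})
  /-- The step from `L` to a finite extension `L'` without defect. -/
  | finite (L L' : Subfield K) : Tower E V L → IsFiniteWithoutDefect V L L' → Tower E V L'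

/-- Every element of the field `K` is a fraction of elements of `A`. -/
def HasFractionField {K : Type u} [Field K] (A : Subring K) : Prop :=
  ∀ z : K, ∃ a ∈ A, ∃ b ∈ A, b ≠ 0 ∧ z = a * b⁻¹

/-- The field `K` is finitely generated over `R`: it is the fraction field of an `R`-algebra of
finite type. -/
def IsFinitelyGenerated {R K : Type u} [CommRing R] [Field K] (ρ : R →+* K) : Prop :=
  ∃ T : Set K, T.Finite ∧ HasFractionField (adjoined ρ T)

/-- The class of valuations (of fields over `R`) which are reached from the discrete and divergent
ones and from known ones by compositions and by towers without defect. -/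
inductive Reachable (R : Type u) [CommRing R] :
    ∀ {K : Type u} [Field K], (R →+* K) → ValuationSubring K → Prop
  /-- The trivial valuations. -/
  | trivial {K : Type u} [Field K] (ρ : R →+* K) : Reachable R ρ (⊤ : ValuationSubring K)
  /-- The discrete valuations of rank one, and the valuations with divergent sequences of quadratic
  transforms of all `R`-algebras of finite type. -/
  | divergent {K : Type u} [Field K] (ρ : R →+* K) (V : ValuationSubring K) :
    (IsDiscreteValuationRing V ∨ ∀ T : Set K, T.Finite → adjoined ρ T ≤ V.toSubring →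
      IsDivergent V (adjoined ρ T)) → Reachable R ρ V
  /-- The valuations of a finitely generated field which are log uniformizable on the spectra of all
  `R`-algebras of finite type with this fraction field. -/
  | known {K : Type u} [Field K] (ρ : R →+* K) (V : ValuationSubring K) : IsFinitelyGenerated ρ →
    (∀ T : Set K, T.Finite → adjoined ρ T ≤ V.toSubring → HasFractionField (adjoined ρ T) →
      IsLogUniformizable V (adjoined ρ T)) → Reachable R ρ V
  /-- The composites of a valuation ring `V₁` and a valuation ring `W` of its residue field. -/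
  | composite {K : Type u} [Field K] (ρ : R →+* K) (V V₁ : ValuationSubring K)
    (W : ValuationSubring (ResidueField V₁)) (hρ : ∀ a, ρ a ∈ V₁.toSubring) :
    IsComposite V V₁ W → Reachable R ρ V₁ →
    Reachable R ((residue V₁).comp (ρ.codRestrict V₁.toSubring hρ)) W → Reachable R ρ V
  /-- The valuations of a field `K` which is reached by a tower without defect from a finitely
  generated field `E` whose valuation is in the class. -/
  | tower {E K : Type u} [Field E] [Field K] [Algebra E K] (ρ : R →+* E)
    (V : ValuationSubring K) : (∀ a, algebraMap E K (ρ a) ∈ V) → IsFinitelyGenerated ρ →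
    Reachable R ρ (V.comap (algebraMap E K)) → Tower E V ⊤ →
    Reachable R ((algebraMap E K).comp ρ) V

/-- The coordinate ring `O[v / w : v ∈ W]` of the chart `w ≠ 0` of the projective `O`-scheme
`Proj O[W]` with the function field `K` and the homogeneous coordinates `W ⊆ K`. -/
def chart {K : Type u} [Field K] (O : Subring K) (W : Set K) (w : K) : Subring K :=
  Subring.closure ((O : Set K) ∪ {z | ∃ v ∈ W, z = v / w})

/-- `Y` is a finite set of forms of some degree `d` over `O` in the homogeneous coordinates `W`,
and `N ^ n` times any form of degree `d` is a linear combination of the forms in `Y`, for some `n`.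
So the closed subscheme of `Proj O[W]` defined by the forms in `Y` is contained in the zero set of
`N`. -/
def IsVerticalCentre {K : Type u} [Field K] (O : Subring K) (N : K) (W Y : Set K) : Prop :=
  Y.Finite ∧ ∃ d n : ℕ, Y ⊆ ((Submodule.span O W) ^ d : Submodule O K) ∧
    ∀ z ∈ (Submodule.span O W) ^ d, N ^ n * z ∈ Submodule.span O Y

/-- The homogeneous coordinates of the blowing-up of `Proj O[W]` in the closed subscheme which is
defined by the forms in `Y`. -/
def blowUpCoordinates {K : Type u} [Field K] (W Y : Set K) : Set K :=
  {z | ∃ y ∈ Y, ∃ v ∈ W, z = y * v}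

/-- `P` is a regular local ring, and `p` is a unit times a product of powers of elements of a regular
system of parameters `x`. -/
def HasNormalCrossings {K : Type u} [Field K] (P : Subring K) (p : K) : Prop :=
  ∃ (_ : IsRegularLocalRing P) (n : ℕ) (x : Fin n → P) (e : Fin n → ℕ) (c : Pˣ),
    Ideal.span (Set.range x) = IsLocalRing.maximalIdeal P ∧ ringKrullDim P = n ∧
      p = ((c : P) : K) * ∏ i, (x i : K) ^ e i

/-- The projective scheme `Proj O[W]` is regular at the centre of `V`, which lies in the chart
`w ≠ 0`, and the zero set of `p` is a divisor with normal crossings there. -/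
def IsRegularAtCentre {K : Type u} [Field K] (V : ValuationSubring K) (O : Subring K) (W : Set K)
    (p : K) : Prop :=
  ∃ w ∈ W, w ≠ 0 ∧ (∀ v ∈ W, v / w ∈ V) ∧ HasNormalCrossings (centreRing V (chart O W w)) p

/-- The ring of integers of the number field `K`, as a subring of the extension field `F`. -/
def integers (K F : Type) [Field K] [Field F] [Algebra K F] : Subring F :=
  ((algebraMap K F).comp (algebraMap (𝓞 K) K)).range

lemma quadraticSequence_eq {K : Type u} [Field K] (V : ValuationSubring K) (A : Subring K) :
    quadraticSequence V A = qseq V A := by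
  funext n
  induction n with
  | zero => rfl
  | succ n ih =>
    change quadraticTransform V (quadraticSequence V A n) = qt V.toSubring (qseq V A n)
    rw [ih, qt_val]
    rfl

lemma IsDivergent.dv {K : Type u} [Field K] {V : ValuationSubring K} {A : Subring K}
    (h : IsDivergent V A) : Dv V (qseq V A) := by
  rw [← quadraticSequence_eq]
  exact dv_of_lt h

/-- The steps of a tower. -/
lemma Tower.inv {E K : Type u} [Field E] [Field K] [Algebra E K] {V : ValuationSubring K}
    {R' : Subring K} (h0 : Pool.Agent.H176.DT.Inv V R' (algebraMap E K).fieldRange.subtype)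
    {L : Subfield K} (hL : Tower E V L) : Pool.Agent.H176.DT.Inv V R' L.subtype := by
  have kp : ∀ {L : Subfield K} {θ : K} {ϕ : Polynomial L}, IsKey V θ ϕ → IsDefectless V θ ϕ →
      ∃ (n : ℕ) (β : Fin n → Polynomial L), Pool.Agent.H176.DT.KP V θ ϕ β := by
    rintro L θ ϕ ⟨h1, h2, h3⟩ ⟨n, β, h4, h5, h6⟩
    exact ⟨n, β, h1, h2, fun i => (h4 i).1, fun i => (h4 i).2, h5, h6, h3⟩
  induction hL with
  | base => exact h0
  | transcendental L t _ ht hdom ih =>
    refine Pool.Agent.H176.DT.sub_trans V _ t ht (fun f => ?_) ih
    obtain ⟨ϕ, h1, h2, N, d, h3, h4, h5⟩ := hdom f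
    obtain ⟨n, β, h6⟩ := kp h1 h2
    exact ⟨ϕ, n, β, h6, N, d, ⟨h3, h4⟩, h5⟩
  | finite L L' _ hnd ih => exact Pool.Agent.H176.DT.sub_nd V _ hnd.1 hnd.2 ih

lemma Reachable.good {R : Type u} [CommRing R] (hR : HJ R) {K : Type u} [Field K]
    {ρ : R →+* K} {V : ValuationSubring K} (h : Reachable R ρ V) : Pool.Agent.R187.CT.Good ρ V := by
  induction h with
  | trivial ρ => exact Pool.Agent.R187.CT.good_top ρ
  | divergent ρ V h =>
    exact Pool.Agent.R187.CT.good_dv hR ρ V (h.imp_right fun h T hT hTV => (h T hT hTV).dv)
  | known ρ V hK h => exact Pool.Agent.R187.CT.good_given hR ρ V hK h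
  | composite ρ V V₁ W hρ hc _ _ ih₁ ihW =>
    exact Pool.Agent.R187.CT.good_comp hR ρ hρ hc ih₁ ihW
  | tower ρ V hρ hE _ ht ih =>
    exact Pool.Agent.R187.CT.good_tower hR ρ V hρ hE ih fun R' h0 => ht.inv h0

lemma mem_of_isIntegral {F : Type} [Field F] (V : ValuationSubring F) {z : F}
    (hz : IsIntegral ℤ z) : z ∈ V := by
  have h1 : IsIntegral V z := hz.tower_top
  obtain ⟨y, hy⟩ := IsIntegrallyClosed.isIntegral_iff.1 h1
  rw [← hy]
  exact y.2

lemma mem_of_integers {K F : Type} [Field K] [NumberField K] [Field F] [Algebra K F]
    (V : ValuationSubring F) : ∀ a ∈ integers K F, a ∈ V := by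
  rintro _ ⟨a, rfl⟩
  refine mem_of_isIntegral V ?_
  exact (RingOfIntegers.isIntegral a).map ((algebraMap K F).comp (algebraMap (𝓞 K) K)).toIntAlgHom

lemma one {K F : Type} [Field K] [NumberField K] [Field F] [Algebra K F]
    (p : ℕ) (hp : p.Prime) (V : ValuationSubring F)
    (htop : ∀ a : F, ∃ n : ℕ, (p : F) ^ n * a ∈ V)
    (hV : Reachable (𝓞 K) ((algebraMap K F).comp (algebraMap (𝓞 K) K)) V) (W : Set F)
    (hWF : Pool.Agent.R187.CT.FF (integers K F) W) :
    ∃ Y, Pool.Agent.R187.CT.Vc (integers K F) (p : F) W Y ∧
      Pool.Agent.R187.CT.Rc V (integers K F) (Pool.Agent.H176.DT.bu W Y) (p : F) := by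
  have hR : HJ (𝓞 K) := hj_dedekind
  have hF : CharZero F := charZero_of_injective_algebraMap (algebraMap K F).injective
  set ρ : 𝓞 K →+* F := (algebraMap K F).comp (algebraMap (𝓞 K) K) with hρ
  have hO : ∀ a ∈ integers K F, a ∈ V := mem_of_integers V
  obtain ⟨hW, w₀, hw₀, hw₀0, hfr₀⟩ := hWF
  obtain ⟨w, hw, hwm⟩ := Set.exists_max_image W V.valuation hW ⟨w₀, hw₀⟩
  have hw0 : w ≠ 0 := by
    rintro rfl
    have h1 := hwm w₀ hw₀
    rw [map_zero, le_zero_iff, map_eq_zero] at h1
    exact hw₀0 h1
  have hwV : ∀ v ∈ W, v / w ∈ V := by
    intro v hv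
    rw [← V.valuation_le_one_iff, map_div₀]
    exact (div_le_one₀ (zero_lt_iff.2 ((map_ne_zero _).2 hw0))).2 (hwm v hv)
  set T : Set F := {z | ∃ v ∈ W, z = v / w} with hTdef
  have hT : T.Finite := by
    refine (hW.image fun y => y / w).subset ?_
    rintro z ⟨y, hy, rfl⟩
    exact ⟨y, hy, rfl⟩
  have hch : chart (integers K F) W w = Pool.Agent.R187.CT.rg ρ T := rfl
  have hAV : chart (integers K F) W w ≤ V.toSubring := by
    unfold chart
    rw [Subring.closure_le]
    rintro z (hz | ⟨y, hy, rfl⟩)
    · exact hO z hz
    · exact hwV y hy
  have hfr : ∀ z, Fr (chart (integers K F) W w) z := by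
    intro z
    have h1 : Pool.Agent.H176.DT.ch (integers K F) W w₀ =
        Pool.Agent.R187.CT.rg ρ {z | ∃ v ∈ W, z = v / w₀} := rfl
    have h2 := hfr₀ z
    rw [h1] at h2
    refine Pool.Agent.R187.CT.fr_closure ρ (fun a ha => Subring.subset_closure (Or.inl ha)) ?_ h2
    rintro _ ⟨v, hv, rfl⟩
    refine ⟨v / w, Subring.subset_closure (Or.inr ⟨v, hv, rfl⟩), w₀ / w,
      Subring.subset_closure (Or.inr ⟨w₀, hw₀, rfl⟩), div_ne_zero hw₀0 hw0, ?_⟩
    field_simp
  have hLU : LogUnif V (chart (integers K F) W w) :=
    (hV.good hR).logUnif hR hT hAV le_rfl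
      (fun b hb => ⟨b, hb, 1, Subring.one_mem _, one_ne_zero,
        by rw [inv_one]; exact Subring.one_mem _, by rw [inv_one, mul_one]⟩) hfr
  have hN : IsNoetherianRing (chart (integers K F) W w) := by
    rw [hch]
    exact Pool.Agent.R187.CT.noe_rg hR _ hT
  have hSU : Pool.Agent.H176.DT.SU V (chart (integers K F) W w) :=
    Pool.Agent.H176.DT.p_base _ _ ⟨hAV, hfr⟩ hLU
  obtain ⟨Y, d, n, h1, h2, h3, w', h4, h5, h6, h7⟩ :=
    Pool.Agent.R187.CT.model_at V (integers K F) hO hW hw hw0 hwV hSU (p := (p : F))
      (natCast_mem _ p) (Nat.cast_ne_zero.2 hp.ne_zero) htop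
  exact ⟨Y, ⟨h1, d, n, h2, h3⟩, w', h4, h5, h6, h7⟩

/-- Let `K` be a number field, `F` an extension field of `K`, and `W ⊆ F` a finite set such that `F`
is the function field of the integral projective flat scheme `𝒳 = Proj O[W]` over the ring of
integers `O` of `K`. Let `S` be a finite set of prime numbers, and for all `p ∈ S` let `V p` be a
valuation ring of `F` with `|p| < 1` and `F = (V p)[1/p]`, which is in the class `Reachable`. Then
there is a closed subscheme of `𝒳`, contained in the union of the fibres over the `p ∈ S`, such that
the blowing-up of `𝒳` in this subscheme is, for all `p ∈ S`, regular at the centre of `V p`, with a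
fibre over `p` with normal crossings there. -/
theorem result {K F : Type} [Field K] [NumberField K] [Field F] [Algebra K F]
    (W : Set F) (hW : W.Finite)
    (hWF : ∃ w ∈ W, w ≠ 0 ∧ HasFractionField (chart (integers K F) W w))
    (S : Finset ℕ) (hS : ∀ p ∈ S, p.Prime) (V : ℕ → ValuationSubring F)
    (hpV : ∀ p ∈ S, (V p).valuation (p : F) < 1)
    (htop : ∀ p ∈ S, ∀ a : F, ∃ n : ℕ, (p : F) ^ n * a ∈ V p)
    (hV : ∀ p ∈ S, Reachable (𝓞 K) ((algebraMap K F).comp (algebraMap (𝓞 K) K)) (V p)) :
    ∃ Y : Set F, IsVerticalCentre (integers K F) ((∏ p ∈ S, p : ℕ) : F) W Y ∧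
      ∀ p ∈ S, IsRegularAtCentre (V p) (integers K F) (blowUpCoordinates W Y) (p : F) := by
  have hF : CharZero F := charZero_of_injective_algebraMap (algebraMap K F).injective
  exact Pool.Agent.R187.CT.multi (integers K F) S hS V (fun p _ => mem_of_integers (V p)) hpV
    (fun p hp W hWF => one p (hS p hp) (V p) (htop p hp) (hV p hp) W hWF) W ⟨hW, hWF⟩

end Pool.Agent.Results.MP_602153_ag.ModelsAtValuations
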