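import Pool.Agent.R383.TM.NumF
import Pool.Agent.Y223.G.AllW
import Pool.Agent.Y223.G.AllP

/-!
MP_602153_ag: regular projective flat models over the integers, in every dimension, of varieties over
number fields which have a regular projective model over a Galois extension, to which the Galois
action extends, with wild inertia groups of prime order, with nondegenerate action.

The field `F` is a function field over the number field `E`, and `K` is a function field over the
Galois extension `M` of `E`, with a semilinear action `ρ` of the Galois group with the fixed field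
`F`. The elements `z j` of `K` are the homogeneous coordinates of a regular projective scheme `X`
over the ring of integers of `M` with the function field `K`, on which the Galois group acts
linearly. The quotient of `X` by the Galois group can be singular at the images of the points with
nontrivial inertia groups. There is no condition at the points with tame inertia groups. The wild
inertia groups of the primes of `M` have prime order (or are trivial); they can have fixed points on
`X`, not necessarily isolated, but there is a weighted blowup of `X` on which the leading form of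
`g - 1`, for the wild automorphisms `g`, has no zeros.
The scheme `X` is a model of the base change to `M` of the variety `V` over `E` with the
homogeneous coordinates `x`.
-/

set_option autoImplicit false

open AlgebraicGeometry CategoryTheory CategoryTheory.Limits MvPolynomial

open scoped NumberField

namespace Pool.Agent.Results.MP_602153_ag.WeightedWildQuotients

/-- The inertia group of the ideal `𝔓` of the ring of integers of `M`: the automorphisms of `M` over
`E` which act trivially modulo `𝔓`. -/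
def inertiaGroup (E : Type) {M : Type} [Field E] [Field M] [Algebra E M] (𝔓 : Ideal (𝓞 M)) :
    Set (M ≃ₐ[E] M) :=
  {g | ∀ o : 𝓞 M, ∃ e ∈ 𝔓, (e : M) = g o - o}

/-- The order of the inertia group of the maximal ideal `𝔓` (the ramification index of `𝔓` over `E`)
is divisible by `r ^ i`, where `r` is the residue characteristic. -/
def ResCharPowDvd (E : Type) {M : Type} [Field E] [Field M] [Algebra E M] (𝔓 : Ideal (𝓞 M))
    (i : ℕ) : Prop :=
  ∃ r : ℕ, r.Prime ∧ (r : 𝓞 M) ∈ 𝔓 ∧ r ^ i ∣ Nat.card (inertiaGroup E 𝔓)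

/-- `g ≠ 1` is in the wild inertia group of `𝔓`: it is the identity modulo `𝔓` and acts trivially
on `𝔓` modulo `𝔓 ^ 2`. -/
def IsWild {E M : Type} [Field E] [Field M] [Algebra E M] (𝔓 : Ideal (𝓞 M))
    (g : M ≃ₐ[E] M) : Prop :=
  g ≠ 1 ∧ (∀ o : 𝓞 M, ∃ a ∈ 𝔓, (a : M) = g o - o) ∧ ∀ o ∈ 𝔓, ∃ a ∈ 𝔓 ^ 2, (a : M) = g o - o

/-- The automorphism `h` maps the ideal `𝔓` to the ideal `𝔓'`. -/
def Maps {E M : Type} [Field E] [Field M] [Algebra E M] (h : M ≃ₐ[E] M)
    (𝔓 𝔓' : Ideal (𝓞 M)) : Prop :=
  ∀ o o' : 𝓞 M, (o' : M) = h o → (o ∈ 𝔓 ↔ o' ∈ 𝔓')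

section rings

variable {O K : Type} [CommRing O] [Field K] [Algebra O K] {m : ℕ}

/-- The ring `O[z 0 / z j, ..., z m / z j]` of the chart `z j ≠ 0`. -/
def chartRing (O : Type) {K : Type} [CommRing O] [Field K] [Algebra O K] {m : ℕ}
    (z : Fin (m + 1) → K) (j : Fin (m + 1)) : Subring K :=
  (Algebra.adjoin O (Set.range fun i => z i / z j)).toSubring

/-- The element `a T ^ n` of the ring of Laurent polynomials. -/
noncomputable def homog {K : Type} [Field K] (a : K) (n : ℤ) : LaurentPolynomial K :=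
  LaurentPolynomial.C a * LaurentPolynomial.T n

/-- The graded ring (the extended Rees algebra) over the chart `z j ≠ 0` of the weighted blowup for
which the ideal `𝔓` has the weight `e` and the coordinate `z i` has the weight `w i`: it is generated
over `O` by `T ^ (-1)`, the elements `a T ^ e`, for `a` in `𝔓`, and the elements
`(z i / z j) T ^ (w i)`. -/
noncomputable def blowupRing (𝔓 : Ideal O) (e : ℕ) (w : Fin (m + 1) → ℕ) (z : Fin (m + 1) → K)
    (j : Fin (m + 1)) : Subring (LaurentPolynomial K) :=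
  (Algebra.adjoin O ({homog 1 (-1)} ∪ {f | ∃ a ∈ 𝔓, f = homog (algebraMap O K a) e} ∪
    Set.range fun i => homog (z i / z j) (w i))).toSubring

/-- The ideal of the zeros of the leading form `T ^ D (σ - 1)` of the automorphism `σ`, over `𝔓`, in
the ring `B` of the weighted blowup over the chart `z j ≠ 0`: it is generated by the elements of
`𝔓`, the elements `(σ a - a) T ^ (e + D)`, for `a` in `𝔓`, and the minors
`(z i σ(z l) - z l σ(z i)) / z j ^ 2`, times `T ^ (w i + w l + D)`. -/
noncomputable def zeroIdeal (B : Subring (LaurentPolynomial K)) (𝔓 : Ideal O) (e D : ℕ)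
    (w : Fin (m + 1) → ℕ) (z : Fin (m + 1) → K) (σ : K → K) (j : Fin (m + 1)) : Ideal B :=
  Ideal.span {x | (∃ a ∈ 𝔓, (x : LaurentPolynomial K) = homog (algebraMap O K a) 0) ∨
    (∃ a ∈ 𝔓, (x : LaurentPolynomial K) =
      homog (σ (algebraMap O K a) - algebraMap O K a) ((e : ℤ) + D)) ∨
    ∃ i l, (x : LaurentPolynomial K) =
      homog ((z i * σ (z l) - z l * σ (z i)) / z j ^ 2) ((w i : ℤ) + w l + D)}

/-- The leading form `T ^ D (σ - 1)` has no zeros outside the vertex: the homogeneous elements of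
positive degree are in the radical of the ideal of its zeros. -/
def HasNoZeros (B : Subring (LaurentPolynomial K)) (𝔓 : Ideal O) (e D : ℕ)
    (w : Fin (m + 1) → ℕ) (z : Fin (m + 1) → K) (σ : K → K) (j : Fin (m + 1)) : Prop :=
  ∀ x : B, (∃ n : ℕ, 0 < n ∧ ∃ a : K, (x : LaurentPolynomial K) = homog a n) →
    x ∈ (zeroIdeal B 𝔓 e D w z σ j).radical

end rings

/-- The weighted blowups, with the weight `e 𝔓` of `𝔓` and the weights `w 𝔓 i` of the coordinates
`z i`, resolve the wild fixed points. At each maximal ideal `𝔓` with a nontrivial wild inertia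
group: the weighted blowup is regular; the elements `h` of the Galois group map it to the weighted
blowup at `h(𝔓)`; and for `g ≠ 1` in the wild inertia group, which is the identity modulo
`𝔓 ^ (l + 1)`, the action of `g - 1` raises the weights by `D`, `0 < D ≤ l e`, and its leading form
has no zeros outside the vertex. -/
structure IsNondegenerate {E M K : Type} [Field E] [Field M] [NumberField M] [Algebra E M]
    [Field K] [Algebra M K] [Algebra E K] {m : ℕ} (ρ : (M ≃ₐ[E] M) →* (K ≃ₐ[E] K))
    (z : Fin (m + 1) → K) (e : Ideal (𝓞 M) → ℕ) (w : Ideal (𝓞 M) → Fin (m + 1) → ℕ) :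
    Prop where
  pos : ∀ 𝔓 : Ideal (𝓞 M), 0 < e 𝔓
  regular : ∀ (𝔓 : Ideal (𝓞 M)) (g : M ≃ₐ[E] M), 𝔓.IsMaximal → IsWild 𝔓 g → ∀ j,
    IsRegularRing (blowupRing 𝔓 (e 𝔓) (w 𝔓) z j)
  equivariant : ∀ (𝔓 : Ideal (𝓞 M)) (g : M ≃ₐ[E] M), 𝔓.IsMaximal → IsWild 𝔓 g →
    ∀ (h : M ≃ₐ[E] M) (𝔓' : Ideal (𝓞 M)), Maps h 𝔓 𝔓' → e 𝔓' = e 𝔓 ∧
      ∀ i j, homog (ρ h (z i) / z j) (w 𝔓 i) ∈ blowupRing 𝔓' (e 𝔓') (w 𝔓') z j
  nondegenerate : ∀ (𝔓 : Ideal (𝓞 M)) (g : M ≃ₐ[E] M), 𝔓.IsMaximal → IsWild 𝔓 g →
    ∃ l D : ℕ, 0 < D ∧ D ≤ e 𝔓 * l ∧ (∀ o : 𝓞 M, ∃ a ∈ 𝔓 ^ (l + 1), (a : M) = g o - o) ∧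
      (∀ i j, homog ((ρ g (z i) - z i) / z j) ((w 𝔓 i : ℤ) + D) ∈
        blowupRing 𝔓 (e 𝔓) (w 𝔓) z j) ∧
      ∀ j, HasNoZeros (blowupRing 𝔓 (e 𝔓) (w 𝔓) z j) 𝔓 (e 𝔓) D (w 𝔓) z (ρ g) j

/-- `x` are homogeneous coordinates in the field `F` of the variety with the homogeneous coordinate
ring `B` over `E`: a form vanishes in `B` if and only if it vanishes at `x`. -/
def IsCoordinates {E F B : Type} [Field E] [Field F] [Algebra E F] [CommRing B] [Algebra E B]
    {n : ℕ} (π : MvPolynomial (Fin (n + 1)) E →ₐ[E] B) (x : Fin (n + 1) → F) : Prop :=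
  ∀ d, ∀ P : MvPolynomial (Fin (n + 1)) E, P.IsHomogeneous d → (π P = 0 ↔ aeval x P = 0)

/-- The `M`-linear combinations of the coordinates `x` are those of the coordinates `z`: the
scheme with the coordinates `z` over the ring of integers of `M` is a model of the base change to
`M` of the variety with the coordinates `x` over `E`. -/
def HaveSameLinearForms (M : Type) {F K : Type} [Field M] [Field F] [Field K] [Algebra M K]
    [Algebra F K] {n m : ℕ} (x : Fin (n + 1) → F) (z : Fin (m + 1) → K) : Prop :=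
  Submodule.span M (Set.range fun i => algebraMap F K (x i)) = Submodule.span M (Set.range z)

/-- The dimensions of the local rings of `A` equal the dimensions of their cotangent spaces. -/
def HasRegularLocalRings (A : Type) [CommRing A] : Prop :=
  ∀ p : PrimeSpectrum A, ringKrullDim (Localization.AtPrime p.asIdeal) =
    (((Module.finrank (IsLocalRing.ResidueField (Localization.AtPrime p.asIdeal))
      (IsLocalRing.CotangentSpace (Localization.AtPrime p.asIdeal)) : ℕ) : ℕ∞) : WithBot ℕ∞)

/-- The local rings of the locally Noetherian scheme `Y` are regular. -/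
def IsRegularScheme (Y : Scheme.{0}) : Prop :=
  IsLocallyNoetherian Y ∧
  ∀ U : Y.affineOpens, HasRegularLocalRings (Y.presheaf.obj (Opposite.op U.1))

/-- `Y` is projective over the integers. -/
def IsProjectiveOverInt (Y : Scheme.{0}) : Prop :=
  ∃ (A : Type) (_ : CommRing A) (𝒜 : ℕ → Submodule ℤ A) (_ : GradedAlgebra 𝒜),
    (∀ a ∈ 𝒜 0, ∃ n : ℤ, (n : A) = a) ∧
    (∃ s : Finset A, (∀ a ∈ s, a ∈ 𝒜 1) ∧ Algebra.adjoin ℤ (s : Set A) = ⊤) ∧
    Nonempty (Y ≅ Proj 𝒜)

/-- The generic fibre of `Y` is isomorphic to `V`. -/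
def HasGenericFibre (Y V : Scheme.{0}) : Prop :=
  Nonempty (pullback (specZIsTerminal.from Y)
      (specZIsTerminal.from (Spec (CommRingCat.of ℚ))) ≅ V)

/-- `Y` is an integral regular locally Noetherian scheme, projective and flat over the integers,
with generic fibre `V`. -/
def IsRegularProjectiveFlatModel (V Y : Scheme.{0}) : Prop :=
  IsIntegral Y ∧ IsRegularScheme Y ∧ IsProjectiveOverInt Y ∧ Flat (specZIsTerminal.from Y) ∧
    HasGenericFibre Y V

theorem result :
    ∀ (E M : Type) [Field E] [NumberField E] [Field M] [NumberField M] [Algebra E M]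
      [IsGalois E M],
      -- the wild inertia groups have order at most the residue characteristic
      (∀ 𝔓 : Ideal (𝓞 M), 𝔓.IsMaximal → ¬ ResCharPowDvd E 𝔓 2) →
      -- the function fields over `E` and over `M`, and the Galois action
      ∀ (F K : Type) [Field F] [Field K] [Algebra E F] [Algebra M K] [Algebra E K]
      [IsScalarTower E M K] [Algebra F K] [IsScalarTower E F K]
      (ρ : (M ≃ₐ[E] M) →* (K ≃ₐ[E] K)), (∀ g c, ρ g (algebraMap M K c) = algebraMap M K (g c)) →
      (∀ y, (∀ g, ρ g y = y) ↔ ∃ f : F, algebraMap F K f = y) →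
      -- the regular projective scheme over the ring of integers of `M`, with linear Galois action
      ∀ (m : ℕ) (z : Fin (m + 1) → K), (∀ j, z j ≠ 0) →
      IntermediateField.adjoin M (Set.range fun j => z j / z 0) = ⊤ →
      (∀ g j, ρ g (z j) ∈ Submodule.span (𝓞 M) (Set.range z)) →
      (∀ j, IsRegularRing (chartRing (𝓞 M) z j)) →
      -- the weights
      ∀ (e : Ideal (𝓞 M) → ℕ) (w : Ideal (𝓞 M) → Fin (m + 1) → ℕ), IsNondegenerate ρ z e w →
      -- the variety over `E`
      ∀ (n : ℕ) (B : Type) [CommRing B] [Algebra E B] (π : MvPolynomial (Fin (n + 1)) E →ₐ[E] B),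
      Function.Surjective π →
      ∀ (ℬ : ℕ → Submodule E B) [GradedAlgebra ℬ],
      (∀ d, ℬ d = (homogeneousSubmodule (Fin (n + 1)) E d).map π.toLinearMap) →
      ∀ (x : Fin (n + 1) → F), IsCoordinates π x → HaveSameLinearForms M x z →
      -- every scheme isomorphic to `Proj ℬ` has a regular projective flat model over the integers
      ∀ (V : Scheme.{0}), Nonempty (V ≅ Proj ℬ) → ∃ Y, IsRegularProjectiveFlatModel V Y := by
  intro E M _ _ _ _ _ _ hin F K _ _ _ _ _ _ _ _ ρ hρ hfix m z hz hgen hlin hreg e w hW n B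
    _ _ π hπ ℬ _ hℬ x hx hseg V hV
  have hcard : ∀ 𝔓 : Ideal (𝓞 M), Nat.card (Pool.Agent.Y223.G.inert E 𝔓) =
      Nat.card (inertiaGroup E 𝔓) := by
    intro 𝔓
    have h1 : ((Pool.Agent.Y223.G.inert E 𝔓 : Subgroup (M ≃ₐ[E] M)) : Set (M ≃ₐ[E] M)) =
        inertiaGroup E 𝔓 := by
      ext g
      constructor
      · intro hg o
        exact ⟨_, hg o, rfl⟩
      · intro hg o
        obtain ⟨e, he, h⟩ := hg o
        have h2 : e = Pool.Agent.Y223.G.TT E M g o - o := by
          apply NumberField.RingOfIntegers.coe_injective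
          exact h
        rw [← h2]
        exact he
    exact congrArg (fun S : Set (M ≃ₐ[E] M) => Nat.card S) h1
  have hD : Pool.Agent.R383.TM.WWD E M F K ρ z :=
    Pool.Agent.R383.TM.wwd_of Pool.Agent.Y223.G.all_TAMC ρ hρ hfix
      (fun 𝔓 h𝔓 p hp hp𝔓 hd => hin 𝔓 h𝔓 ⟨p, hp, hp𝔓, by rwa [← hcard]⟩)
      z hz hgen hlin (fun j => hreg j) e w
      ⟨hW.pos, hW.regular, hW.equivariant, hW.nondegenerate⟩
  obtain ⟨Y, h1, h2, h3, h4, h5, h6⟩ := Pool.Agent.R383.TM.tm_model_Z
    Pool.Agent.Y223.G.all_LINW Pool.Agent.Y223.G.all_CHW Pool.Agent.Y223.G.all_RWB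
    Pool.Agent.Y614.H.RegL.t_REGL hD x hseg π hπ ℬ hℬ (fun d P hP => hx d P hP) V hV
  exact ⟨Y, h1, ⟨h2, h3⟩, h4, h5, h6⟩

end Pool.Agent.Results.MP_602153_ag.WeightedWildQuotients
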